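import Pool.Agent.Y716.C.Defs

/-!
# The Hasse principle for almost all systems over the rational numbers
-/

set_option autoImplicit false

namespace Pool.Agent.Y487.C8

open Pool.Agent.Y716.Q Pool.Agent.Y716.C

section
variable {ι : Type*} [Fintype ι] {s : ℕ}

/-- rational and integral zeros -/
theorem solQ_iffS {e : Fin s → ℕ} {f : Fin s → MvPolynomial ι ℤ}
    (hf : ∀ j, (f j).IsHomogeneous (e j + 2)) :
    (∃ x : ι → ℚ, x ≠ 0 ∧ ∀ j, MvPolynomial.aeval x (f j) = 0) ↔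
      ∃ x : ι → ℤ, x ≠ 0 ∧ ∀ j, MvPolynomial.eval x (f j) = 0 := by
  classical
  constructor
  · rintro ⟨x, hx0, hx⟩
    obtain ⟨b, hb⟩ := IsLocalization.exist_integer_multiples_of_finite (nonZeroDivisors ℤ) x
    choose a ha using hb
    have hb0 : (((b : ℤ) : ℚ)) ≠ 0 := by
      intro h
      exact nonZeroDivisors.ne_zero b.2 (by exact_mod_cast h)
    have hax : (fun i => ((a i : ℤ) : ℚ)) = fun i => ((b : ℤ) : ℚ) * x i := by
      funext i
      have := ha i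
      rw [Algebra.smul_def] at this
      simpa using this
    refine ⟨a, ?_, ?_⟩
    · intro h0
      apply hx0
      funext i
      have := congrFun hax i
      simp only [h0, Pi.zero_apply, Int.cast_zero] at this
      exact (mul_eq_zero.mp this.symm).resolve_left hb0
    · intro j
      have h1 : MvPolynomial.aeval (fun i => ((a i : ℤ) : ℚ)) (f j) = 0 := by
        rw [hax, aeval_smul' (hf j), hx, mul_zero]
      rw [aeval_cast] at h1
      exact_mod_cast h1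
  · rintro ⟨x, hx0, hx⟩
    refine ⟨fun i => (x i : ℚ), ?_, ?_⟩
    · intro h0
      apply hx0
      funext i
      have := congrFun h0 i
      simp only [Pi.zero_apply] at this
      exact_mod_cast this
    · intro j
      rw [aeval_cast, hx, Int.cast_zero]

omit [Fintype ι] in
theorem sol_elsS {f : Fin s → MvPolynomial ι ℤ}
    (h : ∃ x : ι → ℤ, x ≠ 0 ∧ ∀ j, MvPolynomial.eval x (f j) = 0) : ElsS f := by
  obtain ⟨x, hx0, hx⟩ := h
  constructor
  · refine ⟨fun i => (x i : ℝ), ?_, fun j => by rw [aeval_cast, hx, Int.cast_zero]⟩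
    intro h0
    apply hx0
    funext i
    have := congrFun h0 i
    simp only [Pi.zero_apply] at this
    exact_mod_cast this
  · intro p _
    refine ⟨fun i => (x i : Padic p), ?_, fun j => by rw [aeval_cast, hx, Int.cast_zero]⟩
    intro h0
    apply hx0
    funext i
    have := congrFun h0 i
    simp only [Pi.zero_apply] at this
    exact_mod_cast this

/-- normalised real zeros -/
theorem exists_real_normS {e : Fin s → ℕ} {f : Fin s → MvPolynomial ι ℤ}
    (hf : ∀ j, (f j).IsHomogeneous (e j + 2))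
    (h : ∃ x : ι → ℝ, x ≠ 0 ∧ ∀ j, MvPolynomial.aeval x (f j) = 0) :
    ∃ (r : ι) (ξ : ι → ℝ), ξ r = 1 ∧ (∀ i, |ξ i| ≤ 1) ∧
      ∀ j, MvPolynomial.aeval ξ (f j) = 0 := by
  obtain ⟨x, hx0, hx⟩ := h
  have hne : Nonempty ι := by
    by_contra hcon
    rw [not_nonempty_iff] at hcon
    exact hx0 (funext (fun i => hcon.elim i))
  obtain ⟨r, _, hr⟩ := Finset.exists_max_image Finset.univ (fun i => |x i|) Finset.univ_nonempty
  have hr0 : x r ≠ 0 := by
    intro h0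
    apply hx0
    funext i
    have := hr i (Finset.mem_univ i)
    rw [h0, abs_zero] at this
    exact abs_eq_zero.mp (le_antisymm this (abs_nonneg _))
  refine ⟨r, fun i => (x r)⁻¹ * x i, inv_mul_cancel₀ hr0, fun i => ?_, fun j => ?_⟩
  · rw [abs_mul, abs_inv, inv_mul_le_iff₀ (abs_pos.mpr hr0), mul_one]
    exact hr i (Finset.mem_univ i)
  · rw [aeval_smul' (hf j), hx, mul_zero]

/-- approximate `p`-adic zeros -/
theorem exists_approxS {e : Fin s → ℕ} {f : Fin s → MvPolynomial ι ℤ}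
    (hf : ∀ j, (f j).IsHomogeneous (e j + 2)) {p : ℕ} [Fact p.Prime]
    (h : ∃ x : ι → ℚ_[p], x ≠ 0 ∧ ∀ j, MvPolynomial.aeval x (f j) = 0) (E : ℕ) :
    ∃ (r : ι) (z : ι → ℤ), z r = 1 ∧ ∀ j, (p : ℤ) ^ E ∣ MvPolynomial.eval z (f j) := by
  classical
  obtain ⟨x, hx0, hx⟩ := h
  obtain ⟨r, y, hr0, -, hy, hyr, -⟩ := padic_norm_data (d := 0) (0 : MvPolynomial ι ℤ)
    (MvPolynomial.isHomogeneous_zero _ _ _) x hx0 (map_zero _)
  have hy' : ∀ i, (y i : ℚ_[p]) = (x r)⁻¹ * x i := by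
    intro i
    rw [hy i, inv_mul_cancel_left₀ hr0]
  have hyf : ∀ j, MvPolynomial.aeval y (f j) = 0 := by
    intro j
    have h1 : (algebraMap ℤ_[p] ℚ_[p]) (MvPolynomial.aeval y (f j)) = 0 := by
      have h2 : (algebraMap ℤ_[p] ℚ_[p]) (MvPolynomial.aeval y (f j))
          = MvPolynomial.aeval (fun i => (x r)⁻¹ * x i) (f j) := by
        have h3 : (fun i => (x r)⁻¹ * x i) = fun i => (algebraMap ℤ_[p] ℚ_[p]) (y i) := by
          funext i
          rw [← hy' i]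
          rfl
        rw [h3, MvPolynomial.aeval_def, MvPolynomial.aeval_def, MvPolynomial.hom_eval₂]
        congr 1
      rw [h2, aeval_smul' (hf j), hx, mul_zero]
    have hinj : Function.Injective (algebraMap ℤ_[p] ℚ_[p]) := FaithfulSMul.algebraMap_injective _ _
    exact (map_eq_zero_iff _ hinj).mp h1
  set z : ι → ℤ := fun i => if i = r then 1 else (PadicInt.appr (y i) E : ℤ) with hz
  have hker : ∀ i, PadicInt.toZModPow E (y i) = ((z i : ℤ) : ZMod (p ^ E)) := by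
    intro i
    by_cases hi : i = r
    · subst hi
      rw [hyr, hz]; simp
    · have : PadicInt.toZModPow E (y i) = ((PadicInt.appr (y i) E : ℕ) : ZMod (p ^ E)) := rfl
      rw [this, hz]
      simp [hi]
  refine ⟨r, z, by simp [hz], fun j => ?_⟩
  have h3 : ((MvPolynomial.eval z (f j) : ℤ) : ZMod (p ^ E)) = 0 := by
    have h4 : PadicInt.toZModPow E (MvPolynomial.aeval y (f j)) =
        ((MvPolynomial.eval z (f j) : ℤ) : ZMod (p ^ E)) := by
      rw [MvPolynomial.aeval_def, MvPolynomial.hom_eval₂]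
      have h5 : ((MvPolynomial.eval z (f j) : ℤ) : ZMod (p ^ E))
          = (Int.castRingHom (ZMod (p ^ E))) (MvPolynomial.eval₂ (RingHom.id ℤ) z (f j)) := rfl
      rw [h5, MvPolynomial.hom_eval₂]
      have h6 : ((PadicInt.toZModPow E).comp (algebraMap ℤ ℤ_[p]))
          = (Int.castRingHom (ZMod (p ^ E))).comp (RingHom.id ℤ) := RingHom.ext_int _ _
      rw [h6]
      congr 1
      funext i
      exact hker i
    rw [← h4, hyf, map_zero]
  rw [ZMod.intCast_zmod_eq_zero_iff_dvd] at h3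
  exact_mod_cast h3

theorem els_locSolTS {e : Fin s → ℕ} {f : Fin s → MvPolynomial ι ℤ}
    (hf : ∀ j, (f j).IsHomogeneous (e j + 2)) (h : ElsS f) : LocSolTS 1 0 0 1 f := by
  constructor
  · intro p hp E
    haveI : Fact p.Prime := ⟨hp⟩
    obtain ⟨r, z, hz1, hz2⟩ := exists_approxS hf (h.2 p) E
    refine ⟨r, z, hz1, hz2, fun a ha i => ?_⟩
    have h1 : p ^ a = 1 := Nat.dvd_one.mp ha
    have h2 : (p : ℤ) ^ a = 1 := by exact_mod_cast h1
    rw [h2]; exact one_dvd _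
  · obtain ⟨r, ξ, h1, h2, h3⟩ := exists_real_normS hf h.1
    refine ⟨r, ξ, h1, h2, fun i => ?_, h3⟩
    rw [Pi.zero_apply, sub_zero]
    exact h2 i

omit [Fintype ι] in
theorem solTS_sol {N : ℕ} {c : ι → ℤ} {ζ : ι → ℝ} {δ : ℝ} {f : Fin s → MvPolynomial ι ℤ}
    (h : SolTS N c ζ δ f) : ∃ x : ι → ℤ, x ≠ 0 ∧ ∀ j, MvPolynomial.eval x (f j) = 0 := by
  obtain ⟨x, h1, h2, _⟩ := h
  exact ⟨x, h1.ne_zero', h2⟩

open scoped Classical in
theorem ncard_eq_filterS (e : Fin s → ℕ) (H : ℕ) (p : (Fin s → MvPolynomial ι ℤ) → Prop) :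
    ({f : Fin s → MvPolynomial ι ℤ | (∀ j, (f j).IsHomogeneous (e j + 2) ∧
      ∀ m, |(f j).coeff m| ≤ (H : ℤ)) ∧ p f} : Set _).ncard =
      ((sysZ ι e (H : ℝ)).filter p).card := by
  have hco : ∀ (d : ℕ) (f : MvPolynomial ι ℤ), IsF d ((H : ℕ) : ℝ) f ↔
      f.IsHomogeneous d ∧ ∀ m, |f.coeff m| ≤ (H : ℤ) := by
    intro d f
    unfold IsF
    refine and_congr_right (fun _ => forall_congr' (fun m => ?_))
    constructor
    · intro h
      have : ((|f.coeff m| : ℤ) : ℝ) ≤ ((H : ℤ) : ℝ) := by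
        rw [Int.cast_abs]; simpa using h
      exact_mod_cast this
    · intro h
      have : ((|f.coeff m| : ℤ) : ℝ) ≤ ((H : ℤ) : ℝ) := by exact_mod_cast h
      rw [Int.cast_abs] at this
      simpa using this
  rw [← Set.ncard_coe_finset]
  congr 1
  ext f
  simp only [Finset.coe_filter, mem_sysZ, hco]

end

/-- Almost all everywhere locally soluble systems have a zero. -/
theorem hp_sys (ι : Type*) [Fintype ι] {s : ℕ} (hs : 1 ≤ s) (e : Fin s → ℕ)
    (hexc : Pool.Agent.Y716.C.ExcStmtS ι e) (hpos : Pool.Agent.Y716.C.PosStmtS ι e) :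
    Pool.Agent.Y716.C.HPStmtS ι e := by
  classical
  unfold HPStmtS
  obtain ⟨c, hc0, H₁, hH₁⟩ := hpos
  rw [Metric.tendsto_atTop]
  intro δ hδ
  obtain ⟨ε, hε⟩ : ∃ ε : ℝ, ε = δ / 2 * c := ⟨_, rfl⟩
  have hε0 : 0 < ε := by rw [hε]; positivity
  obtain ⟨H₂, hH₂⟩ := hexc 1 le_rfl 0 0 1 one_pos ε hε0
  refine ⟨⌈max H₁ H₂⌉₊, fun H hH => ?_⟩
  have hH' : max H₁ H₂ ≤ (H : ℝ) := Nat.ceil_le.mp hH
  have h1 := hH₁ H ((le_max_left _ _).trans hH')
  have h2 := hH₂ H ((le_max_right _ _).trans hH')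
  rw [ncard_eq_filterS, ncard_eq_filterS]
  obtain ⟨Fo, hFo⟩ : ∃ Fo, Fo = sysZ ι e (H : ℝ) := ⟨_, rfl⟩
  have hmem : ∀ f ∈ Fo, ∀ j, (f j).IsHomogeneous (e j + 2) := by
    intro f hf j
    rw [hFo] at hf
    exact (mem_sysZ.mp hf j).1
  have hFo0 : (0:ℝ) < Fo.card := by
    rw [hFo, card_sysZ]
    push_cast
    apply Finset.prod_pos
    intro j _
    exact_mod_cast card_forms_pos (ι := ι) (e j + 2) (Nat.cast_nonneg H)
  rw [← hFo] at h1 h2 ⊢
  obtain ⟨SQ, hSQ⟩ : ∃ SQ : (Fin s → MvPolynomial ι ℤ) → Prop, SQ = fun f =>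
    ∃ x : ι → ℚ, x ≠ 0 ∧ ∀ j, MvPolynomial.aeval x (f j) = 0 := ⟨_, rfl⟩
  have hsolK : Fo.filter (fun f => ∃ x : ι → ℚ, x ≠ 0 ∧ ∀ j, MvPolynomial.aeval x (f j) = 0) =
      Fo.filter (fun f => ∃ x : ι → ℤ, x ≠ 0 ∧ ∀ j, MvPolynomial.eval x (f j) = 0) := by
    apply Finset.filter_congr
    intro f hf
    exact solQ_iffS (hmem f hf)
  rw [hsolK]
  have hab : Fo.filter (fun f => ∃ x : ι → ℤ, x ≠ 0 ∧ ∀ j, MvPolynomial.eval x (f j) = 0) ⊆
      Fo.filter (fun f => ElsS f) := by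
    intro f hf
    rw [Finset.mem_filter] at hf ⊢
    exact ⟨hf.1, sol_elsS hf.2⟩
  have hdiff : (Fo.filter (fun f => ElsS f)) ⊆
      (Fo.filter (fun f => ∃ x : ι → ℤ, x ≠ 0 ∧ ∀ j, MvPolynomial.eval x (f j) = 0)) ∪
      (Fo.filter (fun f => LocSolTS 1 0 0 1 f ∧ ¬ SolTS 1 0 0 1 f)) := by
    intro f hf
    rw [Finset.mem_filter] at hf
    rw [Finset.mem_union, Finset.mem_filter, Finset.mem_filter]
    by_cases hs : ∃ x : ι → ℤ, x ≠ 0 ∧ ∀ j, MvPolynomial.eval x (f j) = 0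
    · left; exact ⟨hf.1, hs⟩
    · right
      exact ⟨hf.1, els_locSolTS (hmem f hf.1) hf.2, fun h => hs (solTS_sol h)⟩
  obtain ⟨a, ha⟩ : ∃ a : ℝ, a = ((Fo.filter (fun f =>
    ∃ x : ι → ℤ, x ≠ 0 ∧ ∀ j, MvPolynomial.eval x (f j) = 0)).card : ℝ) := ⟨_, rfl⟩
  obtain ⟨b, hb⟩ : ∃ b : ℝ, b = ((Fo.filter (fun f => ElsS f)).card : ℝ) := ⟨_, rfl⟩
  have hab' : a ≤ b := by
    rw [ha, hb]; exact_mod_cast Finset.card_le_card hab
  have hba : b ≤ a + ε * Fo.card := by
    have h3 := (Finset.card_le_card hdiff).trans (Finset.card_union_le _ _)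
    have h4 : b ≤ a + ((Fo.filter (fun f => LocSolTS 1 0 0 1 f ∧ ¬ SolTS 1 0 0 1 f)).card : ℝ) := by
      rw [ha, hb]; exact_mod_cast h3
    have h5 : ((Fo.filter (fun f => LocSolTS 1 0 0 1 f ∧ ¬ SolTS 1 0 0 1 f)).card : ℝ) ≤
      ε * Fo.card := h2
    linarith
  have hca : c * Fo.card ≤ a := by rw [ha]; exact h1
  have ha0 : 0 < a := lt_of_lt_of_le (by positivity) hca
  have hb0 : 0 < b := lt_of_lt_of_le ha0 hab'
  rw [← ha, ← hb, Real.dist_eq]
  have h5 : a / b - 1 = -((b - a) / b) := by field_simp; ring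
  rw [h5, abs_neg, abs_of_nonneg (div_nonneg (by linarith) hb0.le), div_lt_iff₀ hb0]
  have h6 : ε * Fo.card ≤ δ / 2 * a := by
    calc ε * Fo.card = δ / 2 * (c * Fo.card) := by rw [hε]; ring
      _ ≤ δ / 2 * a := mul_le_mul_of_nonneg_left hca (by positivity)
  have h7 : δ / 2 * a < δ * b := by
    have h8 : δ / 2 * a ≤ δ / 2 * b := mul_le_mul_of_nonneg_left hab' (by positivity)
    have h9 : 0 < δ / 2 * b := by positivity
    linarith
  linarith

end Pool.Agent.Y487.C8
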