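import Pool.Agent.Y487.C8.Pos
import Pool.Agent.Y487.C8.Hasse

/-!
# Job C8: positive proportion and Hasse principle for systems
-/
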