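import Pool.Agent.Y716.C.Defs

/-!
# A positive proportion of the systems has a zero
-/

set_option autoImplicit false

namespace Pool.Agent.Y487.C8

open Pool.Agent.Y716.Q Pool.Agent.Y716.C

section
variable {ι : Type*} [Fintype ι]

open scoped Classical in
/-- A positive proportion of the systems has a nontrivial zero. -/
theorem pos_sys (ι : Type*) [Fintype ι] {s : ℕ} (hs : 1 ≤ s) (hk : s + 1 ≤ Fintype.card ι)
    (e : Fin s → ℕ) (hcl : Pool.Agent.Y716.C.ClassStmtS ι e) : Pool.Agent.Y716.C.PosStmtS ι e := by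
  obtain ⟨w, hw1, hcl⟩ := hcl (1 / 2) (by positivity)
  obtain ⟨W, hW⟩ : ∃ W : ℕ, W = ∏ p ∈ primesUpTo w, p := ⟨_, rfl⟩
  have hW1 : 1 ≤ W := by
    rw [hW]
    exact Finset.prod_pos (fun p hp => (mem_primesUpTo.mp hp).2.pos)
  have hWr : (1:ℝ) ≤ W := by exact_mod_cast hW1
  obtain ⟨η, hη0, hη1, hηη₀, H₁, hH₁⟩ := hcl w le_rfl (1 / 4) (by norm_num) (by norm_num) W hW1
    (1 / 4) (by norm_num)
  obtain ⟨r, a, ha, har⟩ : ∃ (r : ι) (a : Fin s → ι), Function.Injective a ∧ ∀ j, a j ≠ r := by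
    obtain ⟨f⟩ : Nonempty (Fin (s + 1) ↪ ι) := by
      apply Function.Embedding.nonempty_of_card_le
      rw [Fintype.card_fin]
      exact hk
    refine ⟨f 0, fun j => f j.succ, fun j j' h => ?_, fun j h => ?_⟩
    · exact Fin.succ_injective _ (f.injective h)
    · exact Fin.succ_ne_zero j (f.injective h)
  refine ⟨1 / 2 * ∏ j, (η / (2 * W)) ^ (mons ι (e j + 2)).card, by positivity,
    max H₁ (max (4 * W) (2 * W / η)), fun H hH => ?_⟩
  have hH1 : H₁ ≤ H := (le_max_left _ _).trans hH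
  have hH2 : 4 * (W : ℝ) ≤ H := (le_max_left _ _).trans ((le_max_right _ _).trans hH)
  have hH3 : 2 * W / η ≤ H := (le_max_right _ _).trans ((le_max_right _ _).trans hH)
  have hH0 : 0 < H := by linarith
  -- the special class
  obtain ⟨n, hn⟩ : ∃ n : ℕ, n = ⌊H / (2 * W)⌋₊ := ⟨_, rfl⟩
  have hn1 : (W : ℝ) * n ≤ H / 2 := by
    have : (n : ℝ) ≤ H / (2 * W) := by rw [hn]; exact Nat.floor_le (by positivity)
    rw [le_div_iff₀ (by positivity)] at this
    linarith
  have hn2 : H / 2 - W ≤ (W : ℝ) * n := by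
    have : H / (2 * W) < n + 1 := by rw [hn]; exact Nat.lt_floor_add_one _
    rw [div_lt_iff₀ (by positivity)] at this
    linarith
  obtain ⟨c₀, hc₀⟩ : ∃ c₀ : ℤ, c₀ = (W : ℤ) * n + 1 := ⟨_, rfl⟩
  have hc₀r : (c₀ : ℝ) = W * n + 1 := by rw [hc₀]; push_cast; rfl
  have hc₀1 : |(c₀ : ℝ)| ≤ 3 / 4 * H := by
    rw [hc₀r, abs_of_nonneg (by positivity)]
    linarith
  have hc₀2 : 1 / 4 * H ≤ |(c₀ : ℝ)| := by
    rw [hc₀r, abs_of_nonneg (by positivity)]
    linarith
  have hc₀0 : (c₀ : ℝ) ≠ 0 := by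
    rw [hc₀r]; positivity
  have hdvd : ∀ p : ℕ, p.Prime → p ≤ w → (p : ℤ) ∣ (W : ℤ) * n := by
    intro p hp1 hp2
    apply Dvd.dvd.mul_right
    rw [hW]
    exact_mod_cast Finset.dvd_prod_of_mem _ (mem_primesUpTo.mpr ⟨hp2, hp1⟩)
  obtain ⟨mm, hmm⟩ : ∃ mm : Fin s → (ι →₀ ℕ), mm = fun j =>
    Finsupp.single r (e j + 1) + Finsupp.single (a j) 1 := ⟨_, rfl⟩
  obtain ⟨fc, hfc⟩ : ∃ fc : Fin s → MvPolynomial ι ℤ,
    fc = fun j => MvPolynomial.monomial (mm j) c₀ := ⟨_, rfl⟩
  have hmono : ∀ j, fc j = MvPolynomial.C c₀ *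
      (MvPolynomial.X r ^ (e j + 1) * MvPolynomial.X (a j)) := by
    intro j
    rw [hfc, hmm]
    simp only
    rw [MvPolynomial.X_pow_eq_monomial, MvPolynomial.X, MvPolynomial.monomial_mul, mul_one,
      MvPolynomial.C_mul_monomial, mul_one]
  have hpd : ∀ j i, MvPolynomial.pderiv i (fc j) = MvPolynomial.C c₀ *
      (MvPolynomial.X (a j) * MvPolynomial.pderiv i (MvPolynomial.X r ^ (e j + 1)) +
      MvPolynomial.X r ^ (e j + 1) * MvPolynomial.C (if i = a j then 1 else 0)) := by
    intro j i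
    rw [hmono, MvPolynomial.pderiv_C_mul, MvPolynomial.pderiv_mul]
    by_cases hi : i = a j
    · subst hi
      rw [MvPolynomial.pderiv_X_self, if_pos rfl, map_one]
      ring
    · rw [MvPolynomial.pderiv_X_of_ne (fun h => hi h.symm), if_neg hi, map_zero]
      ring
  obtain ⟨xc, hxc⟩ : ∃ xc : ι → ℤ, xc = Pi.single r 1 := ⟨_, rfl⟩
  have hxr : xc r = 1 := by rw [hxc]; simp
  have hxr' : ∀ j, xc (a j) = 0 := by
    intro j
    rw [hxc, Pi.single_eq_of_ne (har j)]
  obtain ⟨ξ, hξ⟩ : ∃ ξ : ι → ℝ, ξ = Pi.single r 1 := ⟨_, rfl⟩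
  have hξr : ξ r = 1 := by rw [hξ]; simp
  have hξr' : ∀ j, ξ (a j) = 0 := by
    intro j
    rw [hξ, Pi.single_eq_of_ne (har j)]
  have hform : ∀ j, IsF (e j + 2) |(c₀ : ℝ)| (fc j) := by
    intro j
    constructor
    · rw [hfc]
      apply MvPolynomial.isHomogeneous_monomial
      rw [hmm]
      simp [Finsupp.degree_single]
    · intro m
      rw [hfc]
      simp only
      rw [MvPolynomial.coeff_monomial]
      split_ifs
      · exact le_rfl
      · simp
  have hjac : ∀ j i, jac fc xc j i = if i = a j then c₀ else 0 := by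
    intro j i
    unfold jac
    rw [hpd]
    simp only [map_mul, map_add, MvPolynomial.eval_C, MvPolynomial.eval_X, map_pow, hxr, hxr']
    by_cases hi : i = a j
    · simp [hi]
    · simp [hi]
  have hPD : PDataS w fc W 1 xc := by
    refine { hS := hW1, hJ := one_pos, hJS := one_dvd _, hval := ?_, hPJ := ?_,
             hsurj := ?_, hprim := ?_, hSW := ?_ }
    · intro j; rw [hmono]; simp [hxr, hxr']
    · intro p hp1 hp2
      rw [mul_one, hW]
      exact Finset.dvd_prod_of_mem _ (mem_primesUpTo.mpr ⟨hp2, hp1⟩)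
    · intro p hp1 hp2 b
      refine ⟨Function.extend a b 0, fun j => ?_⟩
      have h1 : ∑ i, jac fc xc j i * Function.extend a b 0 i = c₀ * b j := by
        rw [Finset.sum_eq_single (a j)]
        · rw [hjac, if_pos rfl, ha.extend_apply]
        · intro i _ hi
          rw [hjac, if_neg hi, zero_mul]
        · intro h; exact absurd (Finset.mem_univ _) h
      rw [h1, mul_one, hc₀]
      have h2 : ((W : ℤ) * n + 1) * b j - ((1 : ℕ) : ℤ) * b j = ((W : ℤ) * n) * b j := by
        push_cast; ring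
      rw [h2]
      exact Dvd.dvd.mul_right (hdvd p hp1 hp2) _
    · intro p hp1 hp2
      refine ⟨r, fun hd => ?_⟩
      rw [hxr] at hd
      have h3 : (p : ℕ) ∣ 1 := by exact_mod_cast hd
      exact hp1.one_lt.ne' (Nat.dvd_one.mp h3)
    · intro p hp1 hpS
      rw [hW] at hpS
      obtain ⟨q, hq, hpq⟩ := (Prime.dvd_finset_prod_iff hp1.prime _).mp hpS
      have h2 := (mem_primesUpTo.mp hq)
      have h3 := (Nat.prime_dvd_prime_iff_eq hp1 h2.2).mp hpq
      rw [h3]; exact h2.1
  have hRD : RDataS e H (1 / 4) η fc ξ a ((H / c₀) • (1 : Matrix (Fin s) (Fin s) ℝ)) := by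
    refine ⟨fun j => (hform j).mono (by linarith), ?_, ⟨r, hξr⟩, ?_, ha, ?_, ?_⟩
    · intro i
      rw [hξ]
      by_cases hi : i = r
      · rw [hi, Pi.single_eq_same, abs_one]
      · rw [Pi.single_eq_of_ne hi, abs_zero]; norm_num
    · intro j
      have : MvPolynomial.aeval ξ (fc j) = 0 := by rw [hmono]; simp [hξr, hξr']
      rw [this, abs_zero]; positivity
    · have h1 : (Matrix.of fun j j' : Fin s =>
          (MvPolynomial.aeval ξ (MvPolynomial.pderiv (a j') (fc j)) : ℝ) / H) =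
          (c₀ / H : ℝ) • (1 : Matrix (Fin s) (Fin s) ℝ) := by
        ext j j'
        rw [Matrix.of_apply, hpd, Matrix.smul_apply, Matrix.one_apply]
        simp only [map_mul, map_add, MvPolynomial.aeval_C, MvPolynomial.aeval_X, map_pow, hξr, hξr']
        by_cases hjj : j = j'
        · subst hjj
          simp
        · have h2 : ¬ a j' = a j := fun h => hjj (ha h).symm
          simp [hjj, h2]
      rw [h1, Matrix.smul_mul, Matrix.mul_smul, Matrix.one_mul, smul_smul]
      have h2 : H / c₀ * (c₀ / H) = 1 := by field_simp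
      rw [h2, one_smul]
    · intro j j'
      rw [Matrix.smul_apply, Matrix.one_apply]
      have h1 : |H / c₀| ≤ 4 := by
        rw [abs_div, abs_of_pos hH0, div_le_iff₀ (abs_pos.mpr hc₀0)]
        linarith
      split_ifs
      · rw [smul_eq_mul, mul_one]
        refine h1.trans (by norm_num)
      · rw [smul_zero, abs_zero]; norm_num
  have key := hH₁ H hH1 fc W 1 xc ξ a _ hPD hRD (by rw [mul_one])
  rw [mul_one] at key
  obtain ⟨G', hG'⟩ : ∃ G', G' = sysZ ι e (η * H / W) := ⟨_, rfl⟩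
  rw [← hG'] at key
  obtain ⟨Sol, hSol⟩ : ∃ Sol : (Fin s → MvPolynomial ι ℤ) → Prop, Sol = fun f =>
    ∃ x : ι → ℤ, x ≠ 0 ∧ ∀ j, MvPolynomial.eval x (f j) = 0 := ⟨_, rfl⟩
  have hsplit : ((G'.filter (fun g => Sol (memS fc W 1 g))).card : ℝ) +
      ((G'.filter (fun g => ¬ Sol (memS fc W 1 g))).card : ℝ) = G'.card := by
    exact_mod_cast Finset.card_filter_add_card_filter_not (s := G') (fun g => Sol (memS fc W 1 g))
  have h1 : 1 / 2 * (G'.card : ℝ) ≤ ((G'.filter (fun g => Sol (memS fc W 1 g))).card : ℝ) := by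
    have h2 : ((G'.filter (fun g => ¬ Sol (memS fc W 1 g))).card : ℝ) ≤ 1 / 2 * (G'.card : ℝ) := by
      refine (card_filter_le' _ _ _ (fun g _ hg hz => hg ?_)).trans key
      obtain ⟨x, hx1, hx2, _⟩ := hz
      rw [hSol]
      exact ⟨x, hx1.ne_zero', hx2⟩
    linarith
  have hW0 : (0:ℝ) < W := by linarith
  have h3 : ((G'.filter (fun g => Sol (memS fc W 1 g))).card : ℝ) ≤
      (((sysZ ι e H).filter (fun f => Sol f)).card : ℝ) := by
    have : (G'.filter (fun g => Sol (memS fc W 1 g))).card ≤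
        ((sysZ ι e H).filter (fun f => Sol f)).card := by
      apply Finset.card_le_card_of_injOn (fun g => memS fc W 1 g)
      · intro g hg
        have hg' := Finset.mem_filter.mp (Finset.mem_coe.mp hg)
        simp only [Finset.mem_coe, Finset.mem_filter]
        refine ⟨mem_sysZ.mpr (fun j => ?_), hg'.2⟩
        rw [hG'] at hg'
        have h4 := (hform j).add ((mem_sysZ.mp hg'.1 j).C_mul ((W * 1 : ℕ) : ℤ))
        refine h4.mono ?_
        rw [mul_one, Int.cast_natCast, abs_of_pos hW0]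
        have h5 : (W : ℝ) * (η * H / W) = η * H := by field_simp
        rw [h5]
        have h6 : η * H ≤ 1 / 4 * H := mul_le_mul_of_nonneg_right hηη₀ hH0.le
        linarith
      · intro g _ g' _ h
        funext j
        have h := congrFun h j
        unfold memS mem' at h
        have h4 := add_left_cancel h
        rw [mul_one] at h4
        have h5 : (MvPolynomial.C (W : ℤ) : MvPolynomial ι ℤ) ≠ 0 := by
          rw [Ne, MvPolynomial.C_eq_zero]
          exact_mod_cast (by omega : W ≠ 0)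
        exact mul_left_cancel₀ h5 h4
    exact_mod_cast this
  have hfin : 1 / 2 * (∏ j, (η / (2 * W)) ^ (mons ι (e j + 2)).card) * ((sysZ ι e H).card : ℝ) ≤
      (((sysZ ι e H).filter (fun f => Sol f)).card : ℝ) := by
    refine le_trans ?_ (h1.trans h3)
    rw [mul_assoc]
    apply mul_le_mul_of_nonneg_left _ (by norm_num)
    rw [hG', card_sysZ, card_sysZ]
    push_cast
    rw [← Finset.prod_mul_distrib]
    apply Finset.prod_le_prod
    · intro j _
      positivity
    intro j _
    exact card_forms_lower (ι := ι) (e j + 2) (A := H) (R := η * H / W) (c := η / (2 * W))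
      hH0.le (by positivity) (by positivity) (by
        rw [div_le_iff₀ hη0] at hH3
        have h8 : η / (2 * W) * (2 * H + 1) = η * H / W + η / (2 * W) := by field_simp
        have h9 : 2 ≤ η * H / W := by
          rw [le_div_iff₀ hW0]; linarith
        have h10 : η / (2 * W) ≤ 1 := by
          rw [div_le_one (by positivity)]; linarith
        have h11 : 2 * (η * H / W) = η * H / W + η * H / W := by ring
        linarith)
  rw [hSol] at hfin
  exact hfin

end

end Pool.Agent.Y487.C8
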